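import Pool.Agent.Q7.CF.Stm

/-!
# Project CF (helper7), job FCOND: locally realized classes satisfy the conditions of the engine (helper205, after helper224's JCOND)
-/

set_option autoImplicit false

namespace Pool.Agent.Q205.CF

open Polynomial NumberField IsDedekindDomain
open Pool.Agent.Q7.CJ (Nr)
open Pool.Agent.Q7.CF
open Pool.Agent.Q7.LK

theorem exists_place (F : Type) [Field F] [NumberField F] : Nonempty (HeightOneSpectrum (𝓞 F)) := by
  obtain ⟨M, hM⟩ := Ideal.exists_maximal (𝓞 F)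
  refine ⟨⟨M, hM.isPrime, ?_⟩⟩
  exact Ring.ne_bot_of_isMaximal_of_not_isField hM (RingOfIntegers.not_isField F)

theorem ne_two {p r : ℕ} [h : Ok p r] : p ≠ 2 := by
  have h1 := h.h1
  have h2 := h.h2
  omega

theorem fcond (hbas : S_BAS) (_hcpl : S_CPL) (hnrm : S_NRM) (hhs : S_HS2) (hnmm : S_NMM) (horth : S_ORTH)
    (htame : S_TAME) : S_FCOND := by
  intro p r _ _ F _ _ ζ hζ D a hD hA
  have hp : p.Prime := Fact.out
  have hp2 : p ≠ 2 := ne_two (r := r)
  obtain ⟨v0⟩ := exists_place F
  have hinj : ∀ v : HeightOneSpectrum (𝓞 F), Function.Injective (algebraMap F (v.adicCompletion F)) :=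
    fun v => (algebraMap F (v.adicCompletion F)).injective
  have ha : a ≠ 0 := by
    intro h0
    apply (hA v0).1
    change algebraMap F (v0.adicCompletion F) a = 0
    rw [h0, map_zero]
  refine ⟨ha, fun v _ hv => htame p r F v D a hD hv (hA v), fun v hv hvD => ?_, fun v _ => hA v⟩
  obtain ⟨t, h1, h2, h3, h4, h5, h6⟩ := hhs p hp2 F ζ hζ
  have ht : Hilb p ζ t := ⟨h1, h2, h3, h4, h5, h6⟩
  obtain ⟨b1, b2, b3, b4, b5, b6, b7⟩ := hbas p F v
  have hnl : ¬ Lpw p v D := fun h => hvD (b1 D h).2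
  haveI : CharZero (v.adicCompletion F) := charZero_of_injective_algebraMap (hinj v)
  have hDK : (D : v.adicCompletion F) ≠ 0 := by
    change algebraMap F (v.adicCompletion F) D ≠ 0
    rw [Ne, map_eq_zero_iff _ (hinj v)]
    exact hD
  have hCD : Cj p r (D : v.adicCompletion F) (D : v.adicCompletion F) := by
    obtain ⟨_, _, _, _, n1, _, _, _, _, n2, _⟩ := hnmm p r (v.adicCompletion F) (D : v.adicCompletion F) hDK
    refine ⟨hDK, t2 p r _, n2, 1, one_ne_zero, ?_⟩
    rw [n1, one_pow, mul_one]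
  have hzK : IsPrimitiveRoot (algebraMap F (v.adicCompletion F) ζ) p := hζ.map_of_injective (hinj v)
  have hNr : Nr p (D : v.adicCompletion F) (a : v.adicCompletion F) :=
    horth p r (v.adicCompletion F) _ hzK (D : v.adicCompletion F) _ _ hDK hCD (hA v)
  have ht0 : t v a D = 0 := hnrm p hp2 F ζ hζ t ht v D hD hnl a ha hNr
  have hvl1 : vl p v (1 : F) = 0 := by
    have h := b5 1 1 one_ne_zero one_ne_zero
    rw [mul_one] at h
    simpa using h
  have hvlpow : ∀ n : ℕ, vl p v (D ^ n) = n * vl p v D := by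
    intro n
    induction n with
    | zero => simp [hvl1]
    | succ n ih =>
      rw [pow_succ, b5 _ _ (pow_ne_zero n hD) hD, ih]
      push_cast
      ring
  have htDD : t v D D = 0 := by
    have h := h1 v D D hD hD
    have h' : (2 : ZMod p) * t v D D = 0 := by linear_combination h
    have h2' : (2 : ZMod p) ≠ 0 := by
      intro h2'
      have h3' : ((2 : ℕ) : ZMod p) = 0 := by exact_mod_cast h2'
      rw [ZMod.natCast_eq_zero_iff] at h3'
      exact hp2 ((Nat.prime_dvd_prime_iff_eq hp Nat.prime_two).1 h3')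
    exact (mul_eq_zero.1 h').resolve_left h2'
  have htpow : ∀ n : ℕ, t v (a * D ^ n) D = 0 := by
    intro n
    induction n with
    | zero => rw [pow_zero, mul_one, ht0]
    | succ n ih =>
      rw [pow_succ, ← mul_assoc, h2 v _ _ _ (mul_ne_zero ha (pow_ne_zero n hD)) hD hD, ih, htDD, add_zero]
  refine ⟨(-(vl p v a) / vl p v D).val, ?_⟩
  set j := (-(vl p v a) / vl p v D).val with hj
  have hb : a * D ^ j ≠ 0 := mul_ne_zero ha (pow_ne_zero j hD)
  have hvb : vl p v (a * D ^ j) = 0 := by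
    rw [b5 _ _ ha (pow_ne_zero j hD), hvlpow, hj, ZMod.natCast_val, ZMod.cast_id, div_mul_cancel₀ _ hvD]
    ring
  have h7 := b7 hv ζ hζ
  rw [← (h7.2.2.2 (a * D ^ j) hb hvb)]
  have h8 := h5 v hv (a * D ^ j) hb hvb D hD
  have h9 := h1 v (a * D ^ j) D hb hD
  rw [htpow j, h8] at h9
  have h10 : vl p v D * sy p ζ v (a * D ^ j) = 0 := by linear_combination h9
  exact (mul_eq_zero.1 h10).resolve_left hvD

end Pool.Agent.Q205.CF
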