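import Pool.Agent.Q7.CF.Stm
import Pool.Agent.Q7.CJ.Stm

set_option autoImplicit false
set_option linter.unusedSectionVars false

/-!
# Project CF (helper7), job ORTH: the classes are orthogonal for norms (helper205, after helper211's proof for CJ)
-/

open NumberField IsDedekindDomain
open Pool.Agent.Q7.CJ (Nr)
open Pool.Agent.Q7.CF

namespace Pool.Agent.Q205.CF

section

variable {p r : ℕ} [hp : Fact p.Prime] [hok : Ok p r] {K : Type} [Field K] [CharZero K] {D : K}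

/-- induction on the nonzero ideals -/
theorem ideal_ind (hD : IsDedekindDomain (BQ p r D)) {P : Ideal (BQ p r D) → Prop} (h1 : P ⊤)
    (h2 : ∀ Q I : Ideal (BQ p r D), Q.IsMaximal → Q ≠ ⊥ → I ≠ ⊥ → P I → P (Q * I)) (I : Ideal (BQ p r D)) (hI : I ≠ ⊥) : P I := by
  induction I using UniqueFactorizationMonoid.induction_on_prime with
  | h₁ => exact absurd rfl hI
  | h₂ x hx =>
    rw [Ideal.isUnit_iff] at hx
    rw [hx]
    exact h1
  | h₃ a q ha hq ih =>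
    have hqb : q ≠ ⊥ := hq.ne_zero
    have hqp : q.IsPrime := Ideal.isPrime_of_prime hq
    have hqm : q.IsMaximal := hqp.isMaximal hqb
    exact h2 q a hqm hqb ha (ih ha)

theorem quot_eq (I : Ideal (BQ p r D)) : (Ideal.Quotient.mk I (vv p r D)) ^ p =
    Ideal.Quotient.mk I (uu p r D) * (algebraMap K (BQ p r D ⧸ I) D - Ideal.Quotient.mk I (uu p r D)) ^ r := by
  have h1 : algebraMap K (BQ p r D ⧸ I) D - Ideal.Quotient.mk I (uu p r D) = Ideal.Quotient.mk I (ww p r D) := by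
    have h2 : algebraMap K (BQ p r D ⧸ I) D = Ideal.Quotient.mk I (algebraMap K (BQ p r D) D) := rfl
    rw [h2, ← map_sub, ← uu_add_ww p r D, add_sub_cancel_left]
  rw [h1, ← map_pow, ← map_pow, ← map_mul, vv_pow]

end

/-- a point and an ideal -/
theorem partA (hRS : Pool.Agent.Q7.CJ.S_RS) (hRP : Pool.Agent.Q7.CJ.S_RP) (hRPG : S_RPG) (hDED : S_DED) (hNMM : S_NMM)
    (p r : ℕ) [hp : Fact p.Prime] [hok : Ok p r] (hp2 : p ≠ 2) (K : Type) [Field K] [CharZero K] (ζ : K)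
    (hζ : IsPrimitiveRoot ζ p) (D : K) (hD : D ≠ 0)
    (u₀ v₀ : K) (huv : v₀ ^ p = u₀ * (D - u₀) ^ r) (hy : u₀ ≠ 0) (J : Ideal (BQ p r D)) (hJ : J ≠ ⊥) :
    nm p r D J ≠ 0 → Nr p u₀ (nm p r D J) := by
  obtain ⟨hded, hfin, -⟩ := hDED p r K D hD
  obtain ⟨hmul, htop, -⟩ := hNMM p r K D hD
  obtain ⟨rsym, rmul, -, -, -, -, rone, -⟩ := hRS p hp2 K ζ hζ
  refine ideal_ind hded (P := fun J => nm p r D J ≠ 0 → Nr p u₀ (nm p r D J)) ?_ ?_ J hJ
  · intro _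
    rw [htop]
    exact (rone u₀ hy).2.1
  · intro Q I hQ hQ0 hI ih hne
    rw [(hmul Q I hQ0 hI).1] at hne ⊢
    have h1 : nm p r D Q ≠ 0 := left_ne_zero_of_mul hne
    have h2 : nm p r D I ≠ 0 := right_ne_zero_of_mul hne
    refine rmul u₀ _ _ hy h1 h2 ?_ (ih h2)
    let _ : Field (BQ p r D ⧸ Q) := Ideal.Quotient.field Q
    have : FiniteDimensional K (BQ p r D ⧸ Q) := hfin Q hQ0
    have hinj : Function.Injective (algebraMap K (BQ p r D ⧸ Q)) := (algebraMap K (BQ p r D ⧸ Q)).injective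
    have : CharZero (BQ p r D ⧸ Q) := charZero_of_injective_algebraMap hinj
    set y₂ : BQ p r D ⧸ Q := Ideal.Quotient.mk Q (uu p r D) with hy₂
    have hy2 : y₂ ≠ 0 := by
      intro h
      apply h1
      show Algebra.norm K y₂ = 0
      rw [h, Algebra.norm_zero]
    have h3 := (hRPG p r (BQ p r D ⧸ Q) (algebraMap K _ ζ) (hζ.map_of_injective hinj) (algebraMap K _ D)
      (algebraMap K _ u₀) (algebraMap K _ v₀) y₂ (Ideal.Quotient.mk Q (vv p r D))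
      ((_root_.map_ne_zero _).2 hD) ((_root_.map_ne_zero _).2 hy) hy2
      (by rw [← map_pow, ← map_sub, ← map_pow, ← map_mul, huv]) (quot_eq Q)).1
    exact (hRP p K (BQ p r D ⧸ Q)).1 inferInstance u₀ y₂ hy hy2 h3

/-- two ideals -/
theorem partB (hRS : Pool.Agent.Q7.CJ.S_RS) (hRP : Pool.Agent.Q7.CJ.S_RP) (hRPG : S_RPG) (hDED : S_DED) (hNMM : S_NMM) (hBC : S_BC)
    (p r : ℕ) [hp : Fact p.Prime] [hok : Ok p r] (hp2 : p ≠ 2) (K : Type) [Field K] [CharZero K] (ζ : K)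
    (hζ : IsPrimitiveRoot ζ p) (D : K) (hD : D ≠ 0)
    (J : Ideal (BQ p r D)) (hJ : J ≠ ⊥) (hnJ : nm p r D J ≠ 0) (I : Ideal (BQ p r D)) (hI : I ≠ ⊥) :
    nm p r D I ≠ 0 → Nr p (nm p r D J) (nm p r D I) := by
  obtain ⟨hded, hfin, -⟩ := hDED p r K D hD
  obtain ⟨hmul, htop, -⟩ := hNMM p r K D hD
  obtain ⟨rsym, rmul, -, -, -, -, rone, -⟩ := hRS p hp2 K ζ hζ
  refine ideal_ind hded (P := fun I => nm p r D I ≠ 0 → Nr p (nm p r D J) (nm p r D I)) ?_ ?_ I hI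
  · intro _
    rw [htop]
    exact (rone _ hnJ).2.1
  · intro Q I hQ hQ0 hI ih hne
    rw [(hmul Q I hQ0 hI).1] at hne ⊢
    have h1 : nm p r D Q ≠ 0 := left_ne_zero_of_mul hne
    have h2 : nm p r D I ≠ 0 := right_ne_zero_of_mul hne
    refine rmul _ _ _ hnJ h1 h2 ?_ (ih h2)
    let _ : Field (BQ p r D ⧸ Q) := Ideal.Quotient.field Q
    have : FiniteDimensional K (BQ p r D ⧸ Q) := hfin Q hQ0
    have hinj : Function.Injective (algebraMap K (BQ p r D ⧸ Q)) := (algebraMap K (BQ p r D ⧸ Q)).injective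
    have : CharZero (BQ p r D ⧸ Q) := charZero_of_injective_algebraMap hinj
    set y₁ : BQ p r D ⧸ Q := Ideal.Quotient.mk Q (uu p r D) with hy₁
    have hy1 : y₁ ≠ 0 := by
      intro h
      apply h1
      show Algebra.norm K y₁ = 0
      rw [h, Algebra.norm_zero]
    obtain ⟨-, hbc⟩ := hBC p r K (BQ p r D ⧸ Q) (algebraMap K _) D (algebraMap K _ D) rfl hD
    obtain ⟨h3, h4⟩ := hbc J hJ
    have h5 : nm p r (algebraMap K (BQ p r D ⧸ Q) D) (J.map (bc p r (algebraMap K (BQ p r D ⧸ Q)) D (algebraMap K _ D) rfl)) ≠ 0 := by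
      rw [h4]
      exact (_root_.map_ne_zero _).2 hnJ
    have h6 := partA hRS hRP hRPG hDED hNMM p r hp2 (BQ p r D ⧸ Q) (algebraMap K _ ζ) (hζ.map_of_injective hinj) (algebraMap K _ D)
      ((_root_.map_ne_zero _).2 hD) y₁ (Ideal.Quotient.mk Q (vv p r D)) (quot_eq Q) hy1 _ h3 h5
    rw [h4] at h6
    obtain ⟨rsym', -⟩ := hRS p hp2 (BQ p r D ⧸ Q) (algebraMap K _ ζ) (hζ.map_of_injective hinj)
    have h7 := rsym' y₁ _ hy1 ((_root_.map_ne_zero _).2 hnJ) h6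
    exact (hRP p K (BQ p r D ⧸ Q)).1 inferInstance _ y₁ hnJ hy1 h7

theorem orth : Pool.Agent.Q7.CJ.S_RS → Pool.Agent.Q7.CJ.S_RP → S_RPG → S_DED → S_NMM → S_BC → S_ORTH := by
  intro hRS hRP hRPG hDED hNMM hBC p r hp hok K _ _ ζ hζ D a b hD ha hb
  have hp2 : p ≠ 2 := by
    have h1 := hok.h1
    have h2 := hok.h2
    omega
  obtain ⟨ha0, I, hI, s, hs, hIs⟩ := ha
  obtain ⟨hb0, J, hJ, t, ht, hJt⟩ := hb
  obtain ⟨rsym, -, -, -, rpow, -⟩ := hRS p hp2 K ζ hζ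
  have h1 : nm p r D I ≠ 0 := by
    rw [hIs]
    exact mul_ne_zero ha0 (pow_ne_zero _ hs)
  have h2 : nm p r D J ≠ 0 := by
    rw [hJt]
    exact mul_ne_zero hb0 (pow_ne_zero _ ht)
  have h3 := partB hRS hRP hRPG hDED hNMM hBC p r hp2 K ζ hζ D hD J hJ h2 I hI h1
  have h4 := rsym _ _ h2 h1 h3
  have h5 := rpow _ _ s⁻¹ t⁻¹ h1 h2 (inv_ne_zero hs) (inv_ne_zero ht) h4
  have h6 : nm p r D I * s⁻¹ ^ p = a := by
    rw [hIs, mul_assoc, ← mul_pow, mul_inv_cancel₀ hs, one_pow, mul_one]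
  have h7 : nm p r D J * t⁻¹ ^ p = b := by
    rw [hJt, mul_assoc, ← mul_pow, mul_inv_cancel₀ ht, one_pow, mul_one]
  rw [h6, h7] at h5
  exact h5

end Pool.Agent.Q205.CF
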